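import Pool.Agent.Q82.NP.Amp

/-!
# Nef divisors on manifolds with trivial canonical class: irreducible manifolds and linear failure

Let `X` be projective manifolds with `K_X ~ 0` and `H^1(X, O_X) = 0`, and `L` nef divisors on `X`; `κ` is
the Iitaka dimension and `ν` the numerical dimension of `L`. Question Q1 asks whether every `L` is
semiample, equivalently (Kawamata) whether `κ = ν`. We show that Q1 is equivalent to its case for
irreducible manifolds (strict Calabi-Yau manifolds and hyperkähler manifolds), that a failure in one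
dimension gives a failure which is linear in the dimension, on simply connected manifolds of all large
dimensions, and hence that Q1 is equivalent to the weaker inequality `κ ≥ ν - o(dim X)` for simply
connected `X`, in infinitely many dimensions only, with `w ≤ ν ≤ dim X - w`.
-/

set_option autoImplicit false

namespace Pool.Agent.Results.MP_5ee2d0_ag.LinearFailure

open Filter Pool.Agent.Q82.NP

universe u

/-- Pairs `(X, L)`: `X` is a projective manifold with `K_X ~ 0` and `H^1(X, O_X) = 0`, and `L` is a nef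
divisor on `X`. -/
structure NefPairs where
  /-- the pairs -/
  Pair : Type u
  /-- the dimension of `X` -/
  dim : Pair → ℕ
  /-- the Iitaka dimension of `L`, in `ℕ ∪ {-∞}` -/
  kappa : Pair → WithBot ℕ
  /-- the numerical dimension of `L` -/
  nu : Pair → ℕ
  /-- `L` is semiample -/
  Semiample : Pair → Prop
  /-- `X` is simply connected -/
  SimplyConnected : Pair → Prop
  /-- `X` is a strict Calabi-Yau manifold: simply connected, `dim X ≥ 3`, and `h^{p,0}(X) = 0` for
  `0 < p < dim X` -/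
  CalabiYau : Pair → Prop
  /-- `X` is a hyperkähler manifold: simply connected, `dim X > 0`, and `H^0(X, Ω^2)` is spanned by an
  everywhere nondegenerate form (K3 surfaces are included) -/
  Hyperkaehler : Pair → Prop

/-- The known properties. -/
structure IsKnown (T : NefPairs.{u}) : Prop where
  /-- `κ ≤ ν` -/
  kappa_le : ∀ P, T.kappa P ≤ T.nu P
  /-- `ν ≤ dim X` -/
  nu_le : ∀ P, T.nu P ≤ T.dim P
  /-- Kawamata: `L` is semiample if and only if `κ = ν` -/
  semiample_iff : ∀ P, T.Semiample P ↔ T.kappa P = T.nu P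
  /-- the base point free theorem: nef and big divisors are semiample -/
  big : ∀ P, T.nu P = T.dim P → T.Semiample P
  /-- numerically trivial divisors are torsion, since `H^1(X, O_X) = 0` -/
  trivial : ∀ P, T.nu P = 0 → T.Semiample P
  /-- on a hyperkähler manifold of dimension `2 m` the numerical dimension is `0`, `m` or `2 m` (Fujiki,
  Matsushita) -/
  hk : ∀ P, T.Hyperkaehler P → T.nu P = 0 ∨ 2 * T.nu P = T.dim P ∨ T.nu P = T.dim P
  /-- strict Calabi-Yau manifolds are simply connected -/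
  cy_simply : ∀ P, T.CalabiYau P → T.SimplyConnected P
  /-- hyperkähler manifolds are simply connected -/
  hk_simply : ∀ P, T.Hyperkaehler P → T.SimplyConnected P
  /-- `(X, L)` and `(Y, M)` have a product `(X × Y, L ⊠ M)`; `κ` and `ν` are additive -/
  prod : ∀ P Q : T.Pair, ∃ R : T.Pair, T.dim R = T.dim P + T.dim Q ∧
    T.kappa R = T.kappa P + T.kappa Q ∧ T.nu R = T.nu P + T.nu Q ∧
    (T.SimplyConnected P → T.SimplyConnected Q → T.SimplyConnected R)
  /-- Beauville, Bogomolov: a finite étale cover of `X` is a product of an abelian variety `A` of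
  dimension `a` and of strict Calabi-Yau and hyperkähler manifolds; the pull-back of `L` is an exterior
  product of nef divisors, `κ` and `ν` do not change, and the divisor on `A` is semiample (since
  `H^1(X, O_X) = 0`), with `κ = ν = t`. -/
  decomposition : ∀ P : T.Pair, ∃ (a t : ℕ) (l : List T.Pair), t ≤ a ∧
    (∀ Q ∈ l, T.CalabiYau Q ∨ T.Hyperkaehler Q) ∧ T.dim P = a + (l.map T.dim).sum ∧
    T.kappa P = t + (l.map T.kappa).sum ∧ T.nu P = t + (l.map T.nu).sum
  /-- a K3 surface with the trivial divisor -/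
  surface : ∃ P, T.SimplyConnected P ∧ T.dim P = 2 ∧ T.kappa P = 0 ∧ T.nu P = 0
  /-- a K3 surface with an ample divisor -/
  polarized : ∃ P, T.SimplyConnected P ∧ T.dim P = 2 ∧ T.kappa P = 2 ∧ T.nu P = 2
  /-- a Calabi-Yau threefold with the trivial divisor -/
  threefold : ∃ P, T.SimplyConnected P ∧ T.dim P = 3 ∧ T.kappa P = 0 ∧ T.nu P = 0

variable {T : NefPairs.{u}}

/-- Question Q1. -/
def Conjecture (T : NefPairs.{u}) : Prop := ∀ P : T.Pair, T.Semiample P

/-- Question Q1 for strict Calabi-Yau manifolds and hyperkähler manifolds. -/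
def IrreducibleCase (T : NefPairs.{u}) : Prop :=
  ∀ P : T.Pair, T.CalabiYau P ∨ T.Hyperkaehler P → T.Semiample P

/-- `κ = -∞` or `ν - κ ≥ t`. -/
def Gap (P : T.Pair) (t : ℝ) : Prop := ∀ d : ℕ, T.kappa P = d → (d : ℝ) + t ≤ T.nu P

/-- `κ ≥ ν - c dim X`. -/
def Weak (c : ℝ) (P : T.Pair) : Prop :=
  ∃ d : ℕ, T.kappa P = d ∧ (T.nu P : ℝ) - c * T.dim P ≤ d

/-- `X` is simply connected, `w ≤ ν ≤ dim X - w`, and the gap is at least `t`. -/
def Defect (w : ℕ) (P : T.Pair) (t : ℝ) : Prop :=
  T.SimplyConnected P ∧ w ≤ T.nu P ∧ T.nu P + w ≤ T.dim P ∧ Gap P t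

theorem add_eq_coe {x y : WithBot ℕ} {d : ℕ} (h : x + y = d) :
    ∃ d₁ d₂ : ℕ, x = d₁ ∧ y = d₂ ∧ d = d₁ + d₂ := by
  cases x with
  | bot => simp at h
  | coe x =>
    cases y with
    | bot => simp at h
    | coe y =>
      have h1 : WithBot.some (x + y) = WithBot.some d := h
      exact ⟨x, y, rfl, rfl, (WithBot.coe_injective h1).symm⟩

theorem defect_prod (hT : IsKnown T) (w w' : ℕ) (P Q : T.Pair) (s t : ℝ) (hP : Defect w P s)
    (hQ : Defect w' Q t) : ∃ R, T.dim R = T.dim P + T.dim Q ∧ Defect (w + w') R (s + t) := by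
  obtain ⟨R, h1, h2, h3, h4⟩ := hT.prod P Q
  obtain ⟨a0, a1, a2, a3⟩ := hP
  obtain ⟨b0, b1, b2, b3⟩ := hQ
  refine ⟨R, h1, h4 a0 b0, by omega, by omega, fun d hdd => ?_⟩
  rw [h2] at hdd
  obtain ⟨d₁, d₂, e1, e2, rfl⟩ := add_eq_coe hdd
  have := a3 _ e1
  have := b3 _ e2
  rw [h3]
  push_cast
  linarith

theorem Defect.mono {w w' : ℕ} (h : w' ≤ w) {P : T.Pair} {t : ℝ} (hP : Defect w P t) :
    Defect w' P t := by
  obtain ⟨h0, h1, h2, h3⟩ := hP
  exact ⟨h0, by omega, by omega, h3⟩

theorem closed (hT : IsKnown T) (w : ℕ) : ∀ (P Q : T.Pair) (s t : ℝ), Defect w P s → Defect w Q t →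
    ∃ R, T.dim R = T.dim P + T.dim Q ∧ Defect w R (s + t) := by
  intro P Q s t hP hQ
  obtain ⟨R, h1, h2⟩ := defect_prod hT w w P Q s t hP hQ
  exact ⟨R, h1, h2.mono (by omega)⟩

theorem gap_zero {P : T.Pair} {k : ℕ} (h1 : T.kappa P = k) (h2 : T.nu P = k) : Gap P 0 := by
  intro d hd
  rw [h1] at hd
  have h3 : k = d := by exact_mod_cast hd
  rw [h2, h3]
  simp

theorem padded2 (hT : IsKnown T) (w : ℕ) : ∀ (P : T.Pair) (t : ℝ), Defect w P t →
    ∃ R, T.dim R = T.dim P + 2 ∧ Defect w R t := by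
  intro P t hP
  obtain ⟨E, g0, g1, g2, g3⟩ := hT.surface
  obtain ⟨R, h1, h2⟩ := defect_prod hT w 0 P E t 0 hP
    ⟨g0, Nat.zero_le _, by omega, gap_zero (k := 0) (by exact_mod_cast g2) g3⟩
  exact ⟨R, by rw [h1, g1], by simpa using h2⟩

theorem padded3 (hT : IsKnown T) (w : ℕ) : ∀ (P : T.Pair) (t : ℝ), Defect w P t →
    ∃ R, T.dim R = T.dim P + 3 ∧ Defect w R t := by
  intro P t hP
  obtain ⟨E, g0, g1, g2, g3⟩ := hT.threefold
  obtain ⟨R, h1, h2⟩ := defect_prod hT w 0 P E t 0 hP
    ⟨g0, Nat.zero_le _, by omega, gap_zero (k := 0) (by exact_mod_cast g2) g3⟩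
  exact ⟨R, by rw [h1, g1], by simpa using h2⟩

/-- `ν` and `dim X - ν` can be made large -/
theorem enlarge (hT : IsKnown T) {P : T.Pair} {t : ℝ} (hP : Defect 0 P t) (w : ℕ) :
    ∃ R : T.Pair, Defect w R t := by
  induction w with
  | zero => exact ⟨P, hP⟩
  | succ w ih =>
    obtain ⟨Y, a0, a1, a2, a3⟩ := ih
    obtain ⟨E, e0, e1, e2, e3⟩ := hT.surface
    obtain ⟨C, c0, c1, c2, c3⟩ := hT.polarized
    obtain ⟨Z, z1, z2, z3, z4⟩ := hT.prod Y E
    obtain ⟨W, w1, w2, w3, w4⟩ := hT.prod Z C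
    refine ⟨W, w4 (z4 a0 e0) c0, by omega, by omega, fun d hdd => ?_⟩
    rw [w2, z2, e2, c2, add_zero] at hdd
    obtain ⟨d₁, d₂, f1, f2, rfl⟩ := add_eq_coe hdd
    have h5 := a3 _ f1
    have h6 : d₂ = 2 := by exact_mod_cast f2.symm
    subst h6
    rw [w3, z3, e3, c3]
    push_cast
    linarith

theorem gap_of_not (hT : IsKnown T) {P : T.Pair} (h : ¬ T.Semiample P) : Gap P 1 := by
  intro d hd
  rw [hT.semiample_iff, hd] at h
  have h1 := hT.kappa_le P
  rw [hd] at h1
  have h2 : d ≤ T.nu P := WithBot.coe_le_coe.1 h1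
  have h3 : d ≠ T.nu P := fun e => h (by rw [e])
  have h4 : d + 1 ≤ T.nu P := by omega
  exact_mod_cast h4

theorem sum_eq : ∀ l : List T.Pair, (∀ Q ∈ l, T.kappa Q = T.nu Q) →
    (l.map T.kappa).sum = ((l.map T.nu).sum : ℕ) := by
  intro l
  induction l with
  | nil => intro _; rfl
  | cons Q l ih =>
    intro h
    rw [List.map_cons, List.map_cons, List.sum_cons, List.sum_cons,
      ih fun R hR => h R (List.mem_cons_of_mem _ hR), h Q List.mem_cons_self]
    rfl

theorem dim_le_sum : ∀ (l : List T.Pair) (Q : T.Pair), Q ∈ l → T.dim Q ≤ (l.map T.dim).sum := by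
  intro l
  induction l with
  | nil => intro Q h; simp at h
  | cons R l ih =>
    intro Q h
    rw [List.map_cons, List.sum_cons]
    rcases List.mem_cons.1 h with rfl | h
    · omega
    · have := ih Q h
      omega

/-- A failure gives a failure on an irreducible manifold. -/
theorem exists_irreducible (hT : IsKnown T) {P : T.Pair} (h : ¬ T.Semiample P) :
    ∃ Q, (T.CalabiYau Q ∨ T.Hyperkaehler Q) ∧ ¬ T.Semiample Q ∧ T.dim Q ≤ T.dim P := by
  obtain ⟨a, t, l, hta, hl, hd, hk, hn⟩ := hT.decomposition P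
  by_contra hall
  push Not at hall
  apply h
  rw [hT.semiample_iff, hk, hn, sum_eq l fun Q hQ => ?_]
  · push_cast
    rfl
  · rw [← hT.semiample_iff]
    by_contra hQ2
    have h1 := hall Q (hl Q hQ) hQ2
    have h2 := dim_le_sum l Q hQ
    omega

theorem defect_of_irreducible (hT : IsKnown T) {Q : T.Pair}
    (hQ : T.CalabiYau Q ∨ T.Hyperkaehler Q) (h : ¬ T.Semiample Q) : Defect 0 Q 1 := by
  refine ⟨?_, Nat.zero_le _, by simpa using hT.nu_le Q, gap_of_not hT h⟩
  rcases hQ with hQ | hQ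
  · exact hT.cy_simply Q hQ
  · exact hT.hk_simply Q hQ

theorem conjecture_iff (hT : IsKnown T) (w : ℕ) :
    Conjecture T ↔ ∀ (P : T.Pair) (t : ℝ), Defect w P t → t ≤ 0 := by
  constructor
  · rintro h P t ⟨-, -, -, hd⟩
    have h1 := hd _ ((hT.semiample_iff P).1 (h P))
    linarith
  · intro h P
    by_contra hP
    obtain ⟨Q, hQ, hQs, -⟩ := exists_irreducible hT hP
    obtain ⟨R, hR⟩ := enlarge hT (defect_of_irreducible hT hQ hQs) w
    exact absurd (h R 1 hR) (by norm_num)

/-- **Nef divisors on manifolds with trivial canonical class.** For all data with the known properties: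

* Q1 is equivalent to its case for strict Calabi-Yau manifolds and hyperkähler manifolds;
* if `(X, L)` is a counterexample, there is a counterexample `(Y, M)`, `Y` a strict Calabi-Yau or
  hyperkähler manifold of dimension `n₀ ≤ dim X`, `0 < ν(M) < n₀`, and `ν(M) = n₀ / 2` if `Y` is
  hyperkähler, and for every `n ≥ n₀ + 2` there is a simply connected manifold of dimension `n` with a nef
  divisor with `κ = -∞` or `ν - κ ≥ ⌊(n - 2) / n₀⌋`;
* for every `w`, Q1 holds if and only if for every `c > 0` there are arbitrarily large `n` with `κ ≥ 0` and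
  `κ ≥ ν - c n` for all simply connected `X` of dimension `n` and nef `L` with `w ≤ ν ≤ n - w`. -/
theorem result (T : NefPairs.{u}) (hT : IsKnown T) :
    (Conjecture T ↔ IrreducibleCase T) ∧
    (∀ P : T.Pair, ¬ T.Semiample P → ∃ Q : T.Pair, (T.CalabiYau Q ∨ T.Hyperkaehler Q) ∧
      ¬ T.Semiample Q ∧ T.dim Q ≤ T.dim P ∧ 0 < T.nu Q ∧ T.nu Q < T.dim Q ∧
      (T.Hyperkaehler Q → 2 * T.nu Q = T.dim Q) ∧
      ∀ n : ℕ, T.dim Q + 2 ≤ n → ∃ R : T.Pair, T.SimplyConnected R ∧ T.dim R = n ∧
        Gap R ((n - 2) / T.dim Q : ℕ)) ∧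
    ∀ w : ℕ, Conjecture T ↔ ∀ c : ℝ, 0 < c → ∃ᶠ n : ℕ in atTop, ∀ P : T.Pair,
      T.SimplyConnected P → T.dim P = n → w ≤ T.nu P → T.nu P + w ≤ n → Weak c P := by
  refine ⟨⟨fun h P _ => h P, fun h P => ?_⟩, fun P hP => ?_, fun w => ⟨fun h c hc => ?_,
    fun h => ?_⟩⟩
  · by_contra hP
    obtain ⟨Q, hQ, hQs, -⟩ := exists_irreducible hT hP
    exact hQs (h Q hQ)
  · obtain ⟨Q, hQ, hQs, hdim⟩ := exists_irreducible hT hP
    have h0 : T.nu Q ≠ 0 := fun e => hQs (hT.trivial Q e)
    have h1 : T.nu Q ≠ T.dim Q := fun e => hQs (hT.big Q e)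
    have h2 := hT.nu_le Q
    refine ⟨Q, hQ, hQs, hdim, by omega, by omega, fun hk => ?_, fun n hn => ?_⟩
    · rcases hT.hk Q hk with h | h | h
      · exact absurd h h0
      · exact h
      · exact absurd h h1
    · obtain ⟨R, e1, e2⟩ := multiples (closed hT 0) (padded2 hT 0) (padded3 hT 0)
        (defect_of_irreducible hT hQ hQs) (by omega) n hn
      refine ⟨R, e2.1, e1, ?_⟩
      simpa using e2.2.2.2
  · refine (Eventually.of_forall fun n P _ hn _ _ => ?_).frequently
    refine ⟨T.nu P, (hT.semiample_iff P).1 (h P), ?_⟩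
    have : 0 ≤ c * (T.dim P : ℝ) := by positivity
    linarith
  · rw [conjecture_iff hT w, amplify (closed hT w) (padded2 hT w) (padded3 hT w)]
    intro c hc
    refine (h c hc).mono fun n hn P hP s hs => ?_
    obtain ⟨h0, h1, h2, h3⟩ := hs
    obtain ⟨d, e1, e2⟩ := hn P h0 hP h1 (by rw [← hP]; exact h2)
    have h4 := h3 d e1
    rw [hP] at e2
    linarith

end Pool.Agent.Results.MP_5ee2d0_ag.LinearFailure
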